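import Pool.Agent.H56.SymbK4

set_option autoImplicit false

namespace Pool.Agent.Results.MP_d6f7e8_al.Counter

open Pool.Agent.H56.HS

theorem result (K : Type) [Field K] :
    ∃ I : Ideal (MvPolynomial (Fin 6) K), IsPolymatroidal I ∧ I ≠ ⊥ ∧ ¬ CompLinear (symb I 2) :=
  main

end Pool.Agent.Results.MP_d6f7e8_al.Counter
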